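import Pool.Agent.Helper40.CX.CHI.Const

/-!
# Extension of the constants: the `j`-invariant is not constant
-/

set_option autoImplicit false

namespace Pool.Agent.Helper35.EQ

open CX CX.VC CX.BC CX.CHI CX.Pool.Agent.Helper21.TO
open CX.Pool.Agent.Helper51.EW (Wei)

theorem hj_bc {Ω : Type} [Field Ω] {W : Wei Ω}
    (h : ∀ c d : Ω, c ≠ 0 ∨ d ≠ 0 → MvPolynomial.C c * W.A ^ 3 ≠ MvPolynomial.C d * W.B ^ 2)
    (Ω' : Type) [Field Ω'] [Algebra Ω Ω'] (c d : Ω') (hcd : c ≠ 0 ∨ d ≠ 0) :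
    MvPolynomial.C c * (bcW W Ω').A ^ 3 ≠ MvPolynomial.C d * (bcW W Ω').B ^ 2 := by
  intro he
  obtain ⟨l, hl⟩ : ∃ l : Module.Dual Ω Ω', l c ≠ 0 ∨ l d ≠ 0 := by
    by_contra hcon
    push Not at hcon
    have h1 : c = 0 := (Module.forall_dual_apply_eq_zero_iff Ω c).1 fun l => (hcon l).1
    have h2 : d = 0 := (Module.forall_dual_apply_eq_zero_iff Ω d).1 fun l => (hcon l).2
    exact hcd.elim (fun h => h h1) fun h => h h2
  refine h (l c) (l d) hl ?_
  have hA : (bcW W Ω').A ^ 3 = MvPolynomial.map (algebraMap Ω Ω') (W.A ^ 3) := by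
    rw [map_pow]; rfl
  have hB : (bcW W Ω').B ^ 2 = MvPolynomial.map (algebraMap Ω Ω') (W.B ^ 2) := by
    rw [map_pow]; rfl
  rw [hA, hB] at he
  ext e
  have h1 := congrArg (MvPolynomial.coeff e) he
  rw [MvPolynomial.coeff_C_mul, MvPolynomial.coeff_C_mul, MvPolynomial.coeff_map,
    MvPolynomial.coeff_map] at h1
  rw [MvPolynomial.coeff_C_mul, MvPolynomial.coeff_C_mul]
  have h2 := congrArg l h1
  rw [mul_comm c, mul_comm d, ← Algebra.smul_def, ← Algebra.smul_def, map_smul, map_smul,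
    smul_eq_mul, smul_eq_mul] at h2
  rw [mul_comm (l c), mul_comm (l d), h2]

end Pool.Agent.Helper35.EQ
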