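import Mathlib
import Pool.Agent.Helper40.CX.CHI.Const

/-!
# Cyclic base changes of genus one fibrations: extension of the field of constants

The theorem of `Pool.Agent.Helper40.CX.CHI.Const` (helper40), with one field for all characters.
-/

set_option autoImplicit false

namespace Pool.Agent.Helper35.EQ

open IntermediateField CX CX.CHI CX.VC CX.Pool.Agent.Helper21.TO CX.BC
open CX.Pool.Agent.Helper51.EW (Wei)

section

variable {O Ω L E B M : Type} [Field O] [Field Ω] [Field L] [Field E] [Field B] [Field M]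
  [Algebra O Ω] [Algebra O L] [Algebra O E] [Algebra L E] [IsScalarTower O L E] [Algebra Ω B]
  [Algebra O M] {W : Wei O}

/-- Voisin's property for the nontrivial characters of the cyclic base change `M = R (w)`,
`w ^ m = t`, of a genus one fibration, after every extension of the field of constants, on every
projective model on which the group acts by linear maps, given the property for the Weierstrass
models. -/
theorem voisinChi_const' [IsAlgClosed O] [Good O] {m : ℕ} (hm : m ≠ 0)
    (hΔ : 4 * W.A ^ 3 + 27 * W.B ^ 2 ≠ 0) (hW : Minimal (pull W m)) (T : Torsor W L E) {w : L}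
    (hw : w ^ m = T.t) (f : M →ₐ[O] E)
    (hf : ∀ z, ∀ σ ∈ T.G, σ (algebraMap L E w) = algebraMap L E w → σ (f z) = f z)
    {σ₀ : E ≃ₐ[O] E} (hσ₀ : σ₀ ∈ T.G) {γ : O} (hγ : γ ^ m = 1)
    (hσw : σ₀ (algebraMap L E w) = algebraMap O E γ⁻¹ * algebraMap L E w) (s : M ≃ₐ[O] M)
    (hs : ∀ z, f (s z) = σ₀ (f z)) (Ω : Type) [Field Ω] [Algebra O Ω] [IsAlgClosed Ω]
    [Good Ω] (hγ' : (algebraMap O Ω γ) ^ m = 1) :
    ∃ (F : Type) (_ : Field F) (_ : Algebra Ω F) (i : M →+* F) (σ : F ≃ₐ[Ω] F),
      IsConst O Ω M F i ∧ (∀ z, σ (i z) = i (s z)) ∧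
      ∀ (N : ℕ) (ξ : Fin N → F), ξ ≠ 0 → ∀ g : Matrix (Fin N) (Fin N) Ω,
        (∀ l, σ (ξ l) = mulV g ξ l) →
        ∀ t : (proj Ω (van Ω ξ)).Pt → (proj Ω (van Ω ξ)).Pt,
          (∀ x, ∃ c : Ω, ∀ l, mulV g x.1.rep l = c * (t x).1.rep l) →
          ∀ (n : ℕ) (χ : ℂ), χ ≠ 1 →
            VoisinChi (pull (bcW W Ω) m).surface (rot (algebraMap O Ω γ) hγ' hm) χ n →
            VoisinChi (proj Ω (van Ω ξ)) t χ n := by
  obtain ⟨B, _, _, i, hi, hlift⟩ := exists_const O Ω E
  obtain ⟨σ', hσ'⟩ := hlift σ₀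
  -- the lift of `σ₀` maps the field of the surface to itself
  have hmap : ∀ z : cs Ω i (f : M →+* E), σ' (z : B) ∈ cs Ω i (f : M →+* E) := by
    rintro ⟨z, hz⟩
    change σ' z ∈ cs Ω i (f : M →+* E)
    change z ∈ adjoin Ω (Set.range (i.comp (f : M →+* E))) at hz
    induction hz using adjoin_induction with
    | mem x hx =>
      obtain ⟨x, rfl⟩ := hx
      change σ' (i (f x)) ∈ _
      rw [hσ', ← hs]
      exact (csm Ω i (f : M →+* E) (s x)).2
    | algebraMap c => rw [AlgEquiv.commutes]; exact IntermediateField.algebraMap_mem _ _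
    | add x y _ _ hx hy => rw [map_add]; exact add_mem hx hy
    | inv x _ hx => rw [map_inv₀]; exact inv_mem hx
    | mul x y _ _ hx hy => rw [map_mul]; exact mul_mem hx hy
  let σG : cs Ω i (f : M →+* E) →ₐ[Ω] cs Ω i (f : M →+* E) :=
    ((σ' : B →ₐ[Ω] B).comp (cs Ω i (f : M →+* E)).val).codRestrict
      (cs Ω i (f : M →+* E)).toSubalgebra hmap
  have hsurj : Function.Surjective σG := by
    have h1 : ∀ z (hz : z ∈ cs Ω i (f : M →+* E)), ∃ y : cs Ω i (f : M →+* E), σ' (y : B) = z := by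
      intro z hz
      change z ∈ adjoin Ω (Set.range (i.comp (f : M →+* E))) at hz
      induction hz using adjoin_induction with
      | mem x hx =>
        obtain ⟨x, rfl⟩ := hx
        refine ⟨csm Ω i (f : M →+* E) (s.symm x), ?_⟩
        change σ' (i (f (s.symm x))) = i (f x)
        rw [hσ', ← hs, AlgEquiv.apply_symm_apply]
      | algebraMap c =>
        exact ⟨algebraMap Ω _ c, σ'.commutes c⟩
      | add x y _ _ hx hy =>
        obtain ⟨a, ha⟩ := hx
        obtain ⟨b, hb⟩ := hy
        refine ⟨a + b, ?_⟩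
        change σ' ((a : B) + b) = x + y
        rw [map_add, ha, hb]
      | inv x _ hx =>
        obtain ⟨a, ha⟩ := hx
        refine ⟨a⁻¹, ?_⟩
        change σ' ((a : B)⁻¹) = x⁻¹
        rw [map_inv₀, ha]
      | mul x y _ _ hx hy =>
        obtain ⟨a, ha⟩ := hx
        obtain ⟨b, hb⟩ := hy
        refine ⟨a * b, ?_⟩
        change σ' ((a : B) * b) = x * y
        rw [map_mul, ha, hb]
    rintro ⟨z, hz⟩
    obtain ⟨y, hy⟩ := h1 z hz
    exact ⟨y, Subtype.ext hy⟩
  let σF : cs Ω i (f : M →+* E) ≃ₐ[Ω] cs Ω i (f : M →+* E) :=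
    AlgEquiv.ofBijective σG ⟨σG.toRingHom.injective, hsurj⟩
  refine ⟨cs Ω i (f : M →+* E), inferInstance, inferInstance, csm Ω i (f : M →+* E), σF,
    hi.sub f, fun z => ?_, ?_⟩
  · apply Subtype.ext
    change σ' (i (f z)) = i (f (s z))
    rw [hσ', hs]
  intro N ξ hξ g hg t ht n χ hχ hJ
  -- the elements which fix `w` act trivially on the field of the surface
  have hfix : ∀ σ ∈ (tors T hi hlift).G,
      σ (algebraMap (cs Ω i (algebraMap L E)) B (csm Ω i (algebraMap L E) w)) =
        algebraMap (cs Ω i (algebraMap L E)) B (csm Ω i (algebraMap L E) w) →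
      ∀ z : cs Ω i (f : M →+* E), σ (z : B) = z := by
    rintro τ' ⟨τ, hτ, h⟩ hw' z
    have hτw : τ (algebraMap L E w) = algebraMap L E w := by
      have h1 : τ' (i (algebraMap L E w)) = i (algebraMap L E w) := hw'
      rw [h] at h1
      exact i.injective h1
    obtain ⟨z, hz⟩ := z
    change τ' z = z
    change z ∈ adjoin Ω (Set.range (i.comp (f : M →+* E))) at hz
    induction hz using adjoin_induction with
    | mem x hx =>
      obtain ⟨x, rfl⟩ := hx
      change τ' (i (f x)) = i (f x)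
      rw [h, hf x τ hτ hτw]
    | algebraMap c => rw [AlgEquiv.commutes]
    | add x y _ _ hx hy => rw [map_add, hx, hy]
    | inv x _ hx => rw [map_inv₀, hx]
    | mul x y _ _ hx hy => rw [map_mul, hx, hy]
  have hmem : σ' ∈ (tors T hi hlift).G := ⟨σ₀, hσ₀, hσ'⟩
  have hσ'w : σ' (algebraMap (cs Ω i (algebraMap L E)) B (csm Ω i (algebraMap L E) w)) =
      algebraMap Ω B (algebraMap O Ω γ)⁻¹ *
        algebraMap (cs Ω i (algebraMap L E)) B (csm Ω i (algebraMap L E) w) := by
    change σ' (i (algebraMap L E w)) = algebraMap Ω B (algebraMap O Ω γ)⁻¹ * i (algebraMap L E w)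
    rw [hσ', hσw, map_mul, hi.comm, map_inv₀ (algebraMap O Ω)]
  have hξ' : (fun l => (ξ l : B)) ≠ 0 := by
    intro h0
    apply hξ
    funext l
    apply Subtype.ext
    exact congrFun h0 l
  have hlin : ∀ l, σ' (ξ l : B) = mulV g (fun l => (ξ l : B)) l := by
    intro l
    have h1 := congrArg (fun z : cs Ω i (f : M →+* E) => (z : B)) (hg l)
    have h2 := congrFun (mulV_map g ξ (cs Ω i (f : M →+* E)).val) l
    exact h1.trans h2
  -- the power of the lift acts trivially
  have hpow : mulV (g ^ m) (fun l => (ξ l : B)) = fun l => (ξ l : B) := by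
    funext l
    rw [← iterate_mulV hlin m l]
    apply hfix _ (pow_mem hmem m)
    have h1 : ∀ j : ℕ, (σ' ^ j) (algebraMap (cs Ω i (algebraMap L E)) B
        (csm Ω i (algebraMap L E) w)) = algebraMap Ω B ((algebraMap O Ω γ)⁻¹ ^ j) *
        algebraMap (cs Ω i (algebraMap L E)) B (csm Ω i (algebraMap L E) w) := by
      intro j
      induction j with
      | zero => rw [pow_zero, pow_zero, map_one, one_mul]; rfl
      | succ j ih =>
        rw [pow_succ']
        change σ' ((σ' ^ j) _) = _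
        rw [ih, map_mul, AlgEquiv.commutes, hσ'w, ← mul_assoc, ← map_mul, ← pow_succ]
    rw [h1, inv_pow, hγ', inv_one, map_one, one_mul]
  have hl : Lin g (van Ω fun l => (ξ l : B)) :=
    lin_van (σ := (σ' : B →ₐ[Ω] B)) hlin hm hpow
  have hmin : Minimal (pull (bcW W Ω) m) := by
    rw [← pull_bc]
    exact minimal_bc (disc_pull hm hΔ) hW
  have hw' : csm Ω i (algebraMap L E) w ^ m = (tors T hi hlift).t := by
    change csm Ω i (algebraMap L E) w ^ m = csm Ω i (algebraMap L E) T.t
    rw [← map_pow, hw]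
  have key := voisinChi_torsor hm (disc_bc hΔ) hmin (tors T hi hlift) hw'
    (fun l => (ξ l : B)) hξ' (fun σ hσ hσw l => hfix σ hσ hσw (ξ l)) hmem hγ' hσ'w hlin hl hχ hJ
  have key2 : ∀ I : Set (MvPolynomial (Fin N) Ω), I = van Ω (fun l => (ξ l : B)) →
      ∀ t : (proj Ω I).Pt → (proj Ω I).Pt,
        (∀ x, ∃ c : Ω, ∀ l, mulV g x.1.rep l = c * (t x).1.rep l) →
        VoisinChi (proj Ω I) t χ n := by
    rintro _ rfl t ht
    have e : t = linPt hl := by
      funext x
      exact (linPt_unique hl (ht x)).symm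
    rw [e]
    exact key
  exact key2 _ (van_val ξ) t ht

end

end Pool.Agent.Helper35.EQ
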