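import Pool.Agent.Helper35.EQ.Defs
import Pool.Agent.Helper35.EQ.Const
import Pool.Agent.Helper35.EQ.Bc
import Pool.Agent.Helper35.CHI.Cyc2
import Pool.Agent.Helper9.CHI.Main
import Pool.Agent.Helper98.CHI.Wei
import Pool.Agent.Helper98.CHC.Wei
import Pool.Agent.Helper40.CX.CHB.Const

/-!
# The conjecture of Voisin for the nontrivial characters of cyclic base changes
-/

set_option autoImplicit false

namespace Pool.Agent.Helper35.EQ

open IntermediateField CategoryTheory
open CX CX.VC CX.BC CX.CHI CX.Pool.Agent.Helper21.TO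
open CX.Pool.Agent.Helper51.EW (Wei)

section pull

variable {Ω : Type} [Field Ω] {W V : Wei Ω} {m : ℕ}

theorem wei_ext {W V : Wei Ω} (hN : V.N = W.N) (hA : V.A = W.A) (hB : V.B = W.B) : V = W := by
  cases V
  cases W
  simp only at hN hA hB
  subst hN hA hB
  rfl

/-- The base change by `t = w ^ m` is determined by its affine part and its degree. -/
theorem eq_pull [Infinite Ω] (h : IsBaseChange W V (Polynomial.X ^ m)) (hN : V.N = m * W.N) :
    V = pull W m := by
  have key : ∀ {F G : MvPolynomial (Fin 2) Ω} (_ : MvPolynomial.aeval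
      (![1, Polynomial.X] : Fin 2 → Polynomial Ω) F =
        MvPolynomial.aeval (![1, Polynomial.X ^ m] : Fin 2 → Polynomial Ω) G) (T : Ω),
      MvPolynomial.aeval (![1, T] : Fin 2 → Ω) F =
        MvPolynomial.aeval ![1, T] (MvPolynomial.expand m G) := by
    intro F G h T
    have h1 := congrArg (Polynomial.aeval T) h
    rw [CX.CHC.aeval_poly, CX.CHC.aeval_poly, Polynomial.aeval_X, map_pow, Polynomial.aeval_X] at h1
    rw [h1, aeval_expand]
    congr 2
    funext i
    fin_cases i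
    · exact (one_pow m).symm
    · rfl
  have hA : V.A = (pull W m).A := by
    refine CX.CHC.form_ext (n := 4 * (m * W.N)) ?_ (pull W m).hA fun T => key h.A T
    rw [← hN]
    exact V.hA
  have hB : V.B = (pull W m).B := by
    refine CX.CHC.form_ext (n := 6 * (m * W.N)) ?_ (pull W m).hB fun T => key h.B T
    rw [← hN]
    exact V.hB
  exact wei_ext hN hA hB

open CX.CHB in
theorem isAS_pullB (W : Wei Ω) {p : ℕ} (hp : p ≠ 0) : CX.CHC.IsAS W (pullB W p hp) p := by
  have key : ∀ F : MvPolynomial (Fin 2) Ω, MvPolynomial.aeval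
      (![1, Polynomial.X] : Fin 2 → Polynomial Ω) (MvPolynomial.bind₁ (asg p Ω) F) =
        MvPolynomial.aeval (![1, Polynomial.X ^ p - Polynomial.X] : Fin 2 → Polynomial Ω) F := by
    intro F
    rw [MvPolynomial.aeval_bind₁]
    congr 2
    funext i
    fin_cases i
    · change MvPolynomial.aeval _ (MvPolynomial.X 0 ^ p) = 1
      rw [map_pow, MvPolynomial.aeval_X]
      exact one_pow p
    · change MvPolynomial.aeval _ (MvPolynomial.X 1 ^ p - MvPolynomial.X 1 *
        MvPolynomial.X 0 ^ (p - 1)) = Polynomial.X ^ p - Polynomial.X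
      rw [map_sub, map_mul, map_pow, map_pow, MvPolynomial.aeval_X, MvPolynomial.aeval_X]
      change (Polynomial.X ^ p - Polynomial.X * 1 ^ (p - 1) : Polynomial Ω) = _
      rw [one_pow, mul_one]
  exact ⟨key W.A, key W.B⟩

open CX.CHB in
/-- The base change by `t = w ^ p - w` is determined by its affine part and its degree. -/
theorem eq_pullB [Infinite Ω] {p : ℕ} (hp : p ≠ 0)
    (h : IsBaseChange W V (Polynomial.X ^ p - Polynomial.X)) (hN : V.N = p * W.N) :
    V = pullB W p hp := by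
  have key : ∀ {F G : MvPolynomial (Fin 2) Ω} (_ : MvPolynomial.aeval
      (![1, Polynomial.X] : Fin 2 → Polynomial Ω) F = MvPolynomial.aeval
      (![1, Polynomial.X] : Fin 2 → Polynomial Ω) G) (T : Ω),
      MvPolynomial.aeval (![1, T] : Fin 2 → Ω) F = MvPolynomial.aeval ![1, T] G := by
    intro F G h T
    have h1 := congrArg (Polynomial.aeval T) h
    rwa [CX.CHC.aeval_poly, CX.CHC.aeval_poly, Polynomial.aeval_X] at h1
  have hP := isAS_pullB W hp
  have hA : V.A = (pullB W p hp).A := by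
    refine CX.CHC.form_ext (n := 4 * (p * W.N)) ?_ (pullB W p hp).hA fun T =>
      key (h.A.trans hP.A.symm) T
    rw [← hN]
    exact V.hA
  have hB : V.B = (pullB W p hp).B := by
    refine CX.CHC.form_ext (n := 6 * (p * W.N)) ?_ (pullB W p hp).hB fun T =>
      key (h.B.trans hP.B.symm) T
    rw [← hN]
    exact V.hB
  exact wei_ext hN hA hB

end pull

variable {Ω K : Type} [Field Ω] [Field K] [Algebra Ω K] {s m n : ℕ} {g : K ≃ₐ[Ω] K}

theorem IsCyclic.pos (h : IsCyclic s m Ω K g) : 0 < m := by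
  obtain ⟨-, W, V, F, L, E, _, _, _, _, _, _, T, w, f, σ₀, -, -, -, -, -, -, -, -, -, h⟩ := h
  rcases Nat.eq_zero_or_pos m with rfl | h1
  · rcases h with h | h
    · exact absurd Nat.cast_zero h.1
    · exact absurd h.1 Nat.not_prime_zero
  · exact h1

theorem IsCyclic.pow_eq_one (h : IsCyclic s m Ω K g) : g ^ m = 1 := by
  obtain ⟨-, W, V, F, L, E, _, _, _, _, _, _, T, w, f, σ₀, -, -, -, -, -, -, hf, hσ, hg, h⟩ := h
  have h1 : ∀ (j : ℕ) (z : K), f ((g ^ j) z) = (σ₀ ^ j) (f z) := by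
    intro j
    induction j with
    | zero => intro z; rfl
    | succ j ih =>
      intro z
      rw [pow_succ, pow_succ]
      change f ((g ^ j) (g z)) = (σ₀ ^ j) (σ₀ (f z))
      rw [ih, hg]
  have hw : (σ₀ ^ m) (algebraMap L E w) = algebraMap L E w := by
    rcases h with ⟨-, -, γ, hγ, hσw⟩ | ⟨-, hc, -, hσw⟩
    · have h2 : ∀ j : ℕ,
          (σ₀ ^ j) (algebraMap L E w) = algebraMap Ω E (γ ^ j) * algebraMap L E w := by
        intro j
        induction j with
        | zero => rw [pow_zero, pow_zero, map_one, one_mul]; rfl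
        | succ j ih =>
          rw [pow_succ, pow_succ]
          change (σ₀ ^ j) (σ₀ (algebraMap L E w)) = _
          rw [hσw, map_mul, AlgEquiv.commutes, ih, map_mul]
          ring
      rw [h2, hγ.pow_eq_one, map_one, one_mul]
    · have h2 : ∀ j : ℕ, (σ₀ ^ j) (algebraMap L E w) = algebraMap L E w + j := by
        intro j
        induction j with
        | zero => rw [pow_zero, Nat.cast_zero, add_zero]; rfl
        | succ j ih =>
          rw [pow_succ]
          change (σ₀ ^ j) (σ₀ (algebraMap L E w)) = _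
          rw [hσw, map_add, ih, map_one, Nat.cast_succ]
          ring
      have hc' : CharP E m := charP_of_injective_algebraMap (algebraMap Ω E).injective m
      rw [h2, CharP.cast_eq_zero, add_zero]
  apply AlgEquiv.ext
  intro z
  apply f.injective
  change f ((g ^ m) z) = f z
  rw [h1, hf z (σ₀ ^ m) (pow_mem hσ m) hw]

/-- From functions to cycles. -/
theorem cyc_of {Ω' : Type} [Field Ω'] [Algebra Ω Ω'] [IsAlgClosed Ω'] [Good Ω'] (hm : m ≠ 0)
    (hpow : g ^ m = 1)
    (H : ∃ (F : Type) (_ : Field F) (_ : Algebra Ω' F) (i : K →+* F) (σ : F ≃ₐ[Ω'] F),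
      IsConst Ω Ω' K F i ∧ (∀ z, σ (i z) = i (g z)) ∧
      ∀ (N : ℕ) (ξ : Fin N → F), ξ ≠ 0 → ∀ M : Matrix (Fin N) (Fin N) Ω',
        (∀ l, σ (ξ l) = mulV M ξ l) →
        ∀ t : (proj Ω' (van Ω' ξ)).Pt → (proj Ω' (van Ω' ξ)).Pt,
          (∀ x, ∃ c : Ω', ∀ l, mulV M x.1.rep l = c * (t x).1.rep l) →
          ∀ χ : ℂ, χ ≠ 1 → VoisinChi (proj Ω' (van Ω' ξ)) t χ n) :
    ∃ (F : Type) (_ : Field F) (_ : Algebra Ω' F) (i : K →+* F) (σ : F ≃ₐ[Ω'] F),
      IsConst Ω Ω' K F i ∧ (∀ z, σ (i z) = i (g z)) ∧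
      ∀ (N : ℕ) (ξ : Fin N → F) (M : Matrix (Fin N) (Fin N) Ω'), ξ ≠ 0 →
        (∀ j, σ (ξ j) = ∑ l, algebraMap Ω' F (M j l) * ξ l) →
        ∀ r : (proj Ω' (van Ω' ξ)).Pt → (proj Ω' (van Ω' ξ)).Pt, Helper9.CHI.IsLin M r →
          ∀ (a : Fin n → (proj Ω' (van Ω' ξ)).Cycles) (j : Fin n),
            (∃ b, a j = b - b.mapDomain r) →
              ∃ M : ℕ, 0 < M ∧ M • chiSum r m a ∈ ((proj Ω' (van Ω' ξ)).pow n).Rat := by
  obtain ⟨F, _, _, i, σ, hi, hσi, H⟩ := H
  refine ⟨F, inferInstance, inferInstance, i, σ, hi, hσi, fun N ξ M hξ hlin r hr a j ha => ?_⟩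
  have hσm : σ ^ m = 1 := Helper9.CHI.const_pow hi hσi hpow
  refine CHI.cyc_iter hm r (Helper9.CHI.induced_lin hlin hσm hm hr)
    (Helper9.CHI.lin_order hlin hσm hm hr) (fun χ _ hχ => ?_) a j ha
  refine H N ξ hξ M hlin r (fun x => ?_) χ hχ
  obtain ⟨c, -, hc⟩ := hr x
  exact ⟨c, fun l => (hc l).symm⟩

theorem hasVoisinChi [IsAlgClosed Ω] [Good Ω] (hn : s < n) (h : IsCyclic s m Ω K g) :
    HasVoisinChi n m Ω K g := by
  have hpow := h.pow_eq_one
  have hm := h.pos.ne'
  obtain ⟨hs, W, V, F, L, E, _, _, _, _, _, _, T, w, f, σ₀, rfl, hj, hbc, hVN, hmin, hw, hf, hσ, hg,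
    h⟩ := h
  intro Ω' _ _ _ _
  refine cyc_of hm hpow ?_
  have hΔ : 4 * W.A ^ 3 + 27 * W.B ^ 2 ≠ 0 := by
    intro h0
    refine hj 4 (-27) (Or.inl ?_) ?_
    · have h4 : (4 : Ω) = 2 ^ 2 := by norm_num
      rw [h4]
      exact pow_ne_zero 2 Good.two
    · rw [map_neg, map_ofNat, map_ofNat]
      linear_combination h0
  rcases h with ⟨hm0, rfl, γ, hγ, hσw⟩ | ⟨hpr, hc, rfl, hσw⟩
  · have hV := eq_pull hbc hVN
    subst hV
    have hm' : (m : Ω') ≠ 0 := by
      have h1 := (map_ne_zero (algebraMap Ω Ω')).2 hm0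
      rwa [map_natCast] at h1
    have hγ1 : IsPrimitiveRoot γ⁻¹ m := hγ.inv
    have hγ2 : IsPrimitiveRoot (algebraMap Ω Ω' γ⁻¹) m :=
      hγ1.map_of_injective (algebraMap Ω Ω').injective
    rw [map_pow, Polynomial.aeval_X] at hw
    obtain ⟨F, _, _, i, σ, hi, hσi, H⟩ := voisinChi_const' hm hΔ hmin T hw f hf hσ
      hγ1.pow_eq_one (by rw [inv_inv]; exact hσw) g hg Ω' hγ2.pow_eq_one
    exact ⟨F, inferInstance, inferInstance, i, σ, hi, hσi, fun N ξ hξ M hlin t ht χ hχ =>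
      H N ξ hξ M hlin t ht n χ hχ
        (voisinChi_wei (W := bcW W Ω') hm hm' hγ2 hs hn (hj_bc hj Ω') hχ)⟩
  · have hpr' : Fact m.Prime := ⟨hpr⟩
    have hc' : CharP Ω' m := charP_of_injective_algebraMap (algebraMap Ω Ω').injective m
    have hV := eq_pullB hm hbc hVN
    subst hV
    rw [map_sub, map_pow, Polynomial.aeval_X] at hw
    obtain ⟨F, _, _, i, σ, hi, hσi, H⟩ := CX.CHB.voisinChi_constB hm hΔ hmin T hw f hf hσ hσw g hg Ω'
    refine ⟨F, inferInstance, inferInstance, i, σ, hi, hσi, fun N ξ hξ M hlin t ht χ hχ =>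
      H N ξ hξ M hlin t ht n χ hχ ?_⟩
    have hP := isAS_pullB (bcW W Ω') hm
    exact CX.CHC.voisinChi_wei hP hP.trInv hs hn (hj_bc hj Ω') hχ

end Pool.Agent.Helper35.EQ
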