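import Pool.Agent.Helper15.GD.Base
import Pool.Agent.Helper40.CX.BC.Final
import Pool.Agent.Helper40.CX.CHI.Defs
import Pool.Agent.Helper9.CHI.Defs

/-!
# Coniveau on the powers of a variety: the axioms

`H(K)` is the transcendental part of the second cohomology of a variety `X` over `Ω` with function
field `K`, the orthogonal complement of the classes of curves in `H²(X)`. It depends only on `K` and
is functorial for correspondences. Its `n`-th tensor power is contained in `H^{2n}(X ^ n)`, and
`sup K n ν` is the subspace of the classes which are supported on closed subsets of `X ^ n` of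
codimension `ν`.
-/

set_option autoImplicit false

namespace Pool.Agent.Helper35.EQ

open IntermediateField TensorProduct CategoryTheory Pool.Agent.Helper15.GD
open CX CX.VC CX.BC CX.CHI CX.Pool.Agent.Helper21.TO
open CX.Pool.Agent.Helper51.EW (Wei)

section

variable {L : Type} [Field L]

/-- the `n`-th tensor power -/
noncomputable def tpow (V : ModuleCat.{0} L) (n : ℕ) : ModuleCat.{0} L :=
  ModuleCat.of L (⨂[L] _ : Fin n, V)

/-- the product of `n` elements, in the `n`-th tensor power -/
noncomputable def tens {V : ModuleCat.{0} L} {n : ℕ} (z : Fin n → V) : tpow V n :=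
  PiTensorProduct.tprod L z

/-- the product of `n` homomorphisms -/
noncomputable def tmap {V V' : ModuleCat.{0} L} {n : ℕ} (ψ : Fin n → (V ⟶ V')) :
    tpow V n ⟶ tpow V' n :=
  ModuleCat.ofHom (PiTensorProduct.map fun i => (ψ i).hom)

/-- the product of two tensors, that is, the multiplication of the tensor algebra -/
noncomputable def tmul {V : ModuleCat.{0} L} {a b : ℕ} (s : tpow V a) (t : tpow V b) :
    tpow V (a + b) :=
  @GradedMonoid.GMul.mul ℕ (fun i => ⨂[L]^i V) _ _ a b s t

/-- permutation of the factors -/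
noncomputable def tperm {V : ModuleCat.{0} L} {n : ℕ} (σ : Equiv.Perm (Fin n)) (t : tpow V n) :
    tpow V n :=
  PiTensorProduct.reindex L (fun _ => V) σ t

/-- the alternating sum of the products of the `z i` in all orders -/
noncomputable def alt {V : ModuleCat.{0} L} {n : ℕ} (z : Fin n → V) : tpow V n :=
  ∑ σ : Equiv.Perm (Fin n), ((Equiv.Perm.sign σ : ℤ) : L) • tens (z ∘ σ)

/-- `a` is an eigenvalue of `φ`, with an eigenvector in `P`. -/
def IsEigenvalue {V : ModuleCat.{0} L} (φ : V ⟶ V) (P : Submodule L V) (a : L) : Prop :=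
  ∃ x ∈ P, x ≠ 0 ∧ φ.hom x = a • x

/-- `x` is a generalised eigenvector of `φ`. -/
def IsGen {V : ModuleCat.{0} L} (φ : V ⟶ V) (a : L) (x : V) : Prop :=
  x ∈ Module.End.maxGenEigenspace φ.hom a

/-- `P` is stable under `φ` -/
def IsStable {V : ModuleCat.{0} L} (φ : V ⟶ V) (P : Submodule L V) : Prop :=
  ∀ x ∈ P, φ.hom x ∈ P

/-- Let `D i` be a set of at most `s i` eigenvalues of `φ` on `A i`, and let the product of two
different elements of the union be different from `q ^ 2`. Then there is a valuation ring `R` such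
that the elements of all `D i` are units of `R` and `q` is not. If `r = 1` and `D 1` has `s 1`
elements, the other eigenvalues on `A 1` are of the form `q ^ 2 / a` with `a ∈ D 1`, or `q` times a
unit of `R`. -/
def IsOrdinary {V : ModuleCat.{0} L} (φ : V ⟶ V) (q : L) {r : ℕ} (s : Fin r → ℕ)
    (A : Fin r → Submodule L V) : Prop :=
  ∀ D : Fin r → Finset L, (∀ i, ∀ a ∈ D i, IsEigenvalue φ (A i) a) → (∀ i, (D i).card ≤ s i) →
    (∀ i j, ∀ a ∈ D i, ∀ b ∈ D j, a ≠ b → a * b ≠ q ^ 2) →
      ∃ R : ValuationSubring L, q ≠ 0 ∧ q ∈ R ∧ q⁻¹ ∉ R ∧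
        (∀ i, ∀ a ∈ D i, a ≠ 0 ∧ a ∈ R ∧ a⁻¹ ∈ R) ∧
          (r = 1 → (∀ i, (D i).card = s i) → ∀ i b, IsEigenvalue φ (A i) b →
            b ∈ D i ∨ (∃ a ∈ D i, b * a = q ^ 2) ∨ b / q ∈ R ∧ q / b ∈ R)

end

/-- The vector spaces `H(K)`, the homomorphisms `H(K) → H(K')` given by correspondences, the action
of the automorphisms of `K`, and the classes in the tensor powers of `H(K)` which are supported in
codimension `ν`. -/
structure PowCoh (Ω L : Type) [Field Ω] [Field L] where
  H : Ext Ω → ModuleCat.{0} L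
  corr : ∀ K K' : Ext Ω, Set (H K ⟶ H K')
  aut : ∀ K : Ext Ω, (K ≃ₐ[Ω] K) → (H K ⟶ H K)
  sup : ∀ (K : Ext Ω) (n _ν : ℕ), Submodule L (tpow (H K) n)

variable {Ω L : Type} [Field Ω] [Field L]

/-- The identity is given by a correspondence. -/
def PowCoh.Identity (T : PowCoh Ω L) : Prop :=
  ∀ K : Ext Ω, 𝟙 (T.H K) ∈ T.corr K K

/-- Products of correspondences preserve the coniveau. -/
def PowCoh.Stable (T : PowCoh Ω L) : Prop :=
  ∀ (K K' : Ext Ω) (n ν : ℕ) (ψ : Fin n → (T.H K ⟶ T.H K')), (∀ i, ψ i ∈ T.corr K K') →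
    ∀ t ∈ T.sup K n ν, (tmap ψ).hom t ∈ T.sup K' n ν

/-- codimension zero, exterior products, permutations of the factors -/
structure PowCoh.Products (T : PowCoh Ω L) : Prop where
  zero : ∀ (K : Ext Ω) (n : ℕ) (t : tpow (T.H K) n), t ∈ T.sup K n 0
  mul : ∀ (K : Ext Ω) (a b μ ν : ℕ), ∀ s ∈ T.sup K a μ, ∀ t ∈ T.sup K b ν,
    tmul s t ∈ T.sup K (a + b) (μ + ν)
  perm : ∀ (K : Ext Ω) (n ν : ℕ) (σ : Equiv.Perm (Fin n)), ∀ t ∈ T.sup K n ν,
    tperm σ t ∈ T.sup K n ν

/-- For each algebraically closed extension `Ω'` of `Ω` and each projective variety over `Ω'` whose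
generic point has its homogeneous coordinates `ξ` in the field `F` obtained from `K` by the extension
of the constants from `Ω` to `Ω'`: for all zero-cycles `a 0`, …, `a (n - 1)` of degree zero a positive
multiple of the alternating sum of their products in all orders is rationally equivalent to zero. -/
def HasVoisin (n : ℕ) (Ω K : Type) [Field Ω] [Field K] [Algebra Ω K] : Prop :=
  ∀ (Ω' : Type) [Field Ω'] [Algebra Ω Ω'] [IsAlgClosed Ω'] [Good Ω'],
    ∃ (F : Type) (_ : Field F) (_ : Algebra Ω' F) (i : K →+* F), IsConst Ω Ω' K F i ∧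
      ∀ (N : ℕ) (ξ : Fin N → F), ξ ≠ 0 → Voisin (proj Ω' (van Ω' ξ)) n

/-- The sum of the zero-cycles `± r ^ x_0 a (σ 0) × r ^ x_1 a (σ 1) × ...` on `X ^ n`, over all
permutations `σ` (with the sign) and all `x` with `∑ x_i` divisible by `m`. If `r ^ m = 1` and
`r (a i) = χ i a i` for roots of unity `χ i`, then it is `m ^ (n - 1)` times the alternating sum of the
products of the `a i` in all orders if all `χ i` are equal, and `0` otherwise. -/
noncomputable def chiSum {k : Type} [Field k] {X : Variety k} (r : X.Pt → X.Pt) (m : ℕ) {n : ℕ}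
    (a : Fin n → X.Cycles) : (X.pow n).Cycles :=
  ∑ σ : Equiv.Perm (Fin n), ((Equiv.Perm.sign σ : ℤˣ) : ℤ) •
    ∑ x ∈ Finset.univ.filter (fun x : Fin n → Fin m => m ∣ ∑ i, (x i : ℕ)),
      extProd (fun i => (a (σ i)).mapDomain (r^[x i]))

/-- For each algebraically closed extension `Ω'` of `Ω` and each projective variety `X` over `Ω'` whose
generic point has its homogeneous coordinates `ξ` in the field `F` obtained from `K` by the extension of
the constants from `Ω` to `Ω'`, in such a way that the automorphism `s` of `K` acts on `ξ` by a matrix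
`g` and hence on `X` by an automorphism `r`: for all zero-cycles `a 0`, …, `a (n - 1)`, one of which is
of the form `b - r b`, a positive multiple of `chiSum r m a` is rationally equivalent to zero. -/
def HasVoisinChi (n m : ℕ) (Ω K : Type) [Field Ω] [Field K] [Algebra Ω K] (s : K ≃ₐ[Ω] K) : Prop :=
  ∀ (Ω' : Type) [Field Ω'] [Algebra Ω Ω'] [IsAlgClosed Ω'] [Good Ω'],
    ∃ (F : Type) (_ : Field F) (_ : Algebra Ω' F) (i : K →+* F) (σ : F ≃ₐ[Ω'] F),
      IsConst Ω Ω' K F i ∧ (∀ z, σ (i z) = i (s z)) ∧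
      ∀ (N : ℕ) (ξ : Fin N → F) (g : Matrix (Fin N) (Fin N) Ω'), ξ ≠ 0 →
        (∀ j, σ (ξ j) = ∑ l, algebraMap Ω' F (g j l) * ξ l) →
        ∀ r : (proj Ω' (van Ω' ξ)).Pt → (proj Ω' (van Ω' ξ)).Pt, Helper9.CHI.IsLin g r →
          ∀ (a : Fin n → (proj Ω' (van Ω' ξ)).Cycles) (j : Fin n), (∃ b, a j = b - b.mapDomain r) →
            ∃ M : ℕ, 0 < M ∧ M • chiSum r m a ∈ ((proj Ω' (van Ω' ξ)).pow n).Rat

/-- Bloch and Srinivas: if the conjecture of Voisin is true for `n` zero-cycles, then the alternating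
sums of `n` elements are supported on divisors. -/
def PowCoh.BlochSrinivas (T : PowCoh Ω L) : Prop :=
  ∀ (n : ℕ) (K : Ext Ω), HasVoisin n Ω K → ∀ z : Fin n → T.H K, alt z ∈ T.sup K n 1

/-- Bloch and Srinivas for the nontrivial characters: the alternating sums of `n` eigenvectors of an
automorphism of finite order, with the same eigenvalue `c ≠ 1`. -/
def PowCoh.BlochSrinivasChi (T : PowCoh Ω L) : Prop :=
  ∀ (n m : ℕ) (K : Ext Ω) (s : K ≃ₐ[Ω] K), 0 < n → 0 < m → s ^ m = 1 → HasVoisinChi n m Ω K s →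
    ∀ c : L, c ≠ 1 → ∀ z : Fin n → T.H K, (∀ i, (T.aut K s).hom (z i) = c • z i) →
      alt z ∈ T.sup K n 1

/-- The axioms. -/
structure PowCoh.IsTheory (T : PowCoh Ω L) : Prop where
  identity : T.Identity
  stable : T.Stable
  products : T.Products
  blochSrinivas : T.BlochSrinivas
  blochSrinivasChi : T.BlochSrinivasChi

/-- `K` is contained in the function field of a surface with a genus one fibration over the
projective line and the Euler characteristic `s + 1`: the minimal Weierstrass equation of the Jacobian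
fibration has coefficients `A` and `B` of degrees `4 (s + 1)` and `6 (s + 1)`. -/
def IsGenusOne (s : ℕ) (Ω K : Type) [Field Ω] [Field K] [Algebra Ω K] : Prop :=
  ∃ (W : Wei Ω) (L E : Type) (_ : Field L) (_ : Algebra Ω L) (_ : Field E) (_ : Algebra Ω E)
    (_ : Algebra L E) (_ : IsScalarTower Ω L E) (T : Torsor W L E) (f : K →ₐ[Ω] E),
    W.N = s + 1 ∧ 4 * W.A ^ 3 + 27 * W.B ^ 2 ≠ 0 ∧ Minimal W ∧ ∀ z, ∀ σ ∈ T.G, σ (f z) = f z

/-- The Weierstrass equation `V` over the projective line with the coordinate `w` is, over the affine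
line, the base change by `t = f(w)` of the equation `W` over the line with the coordinate `t`. -/
structure IsBaseChange (W V : Wei Ω) (f : Polynomial Ω) : Prop where
  A : MvPolynomial.aeval (![1, Polynomial.X] : Fin 2 → Polynomial Ω) V.A =
    MvPolynomial.aeval (![1, f] : Fin 2 → Polynomial Ω) W.A
  B : MvPolynomial.aeval (![1, Polynomial.X] : Fin 2 → Polynomial Ω) V.B =
    MvPolynomial.aeval (![1, f] : Fin 2 → Polynomial Ω) W.B

/-- `K` is contained in `R (w)`, `w ^ m = t` or `w ^ p - w = t`, `m = p` the characteristic, where `R` is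
the function field of a surface with a genus one fibration over the projective line with the coordinate
`t`, and the Euler characteristic `s`, and `g` is the restriction of a generator of the Galois group of
`R (w)` over `R`. The base change of the Weierstrass equation of the Jacobian fibration is minimal, with
coefficients of degrees `4 m s` and `6 m s`, and the `j`-invariant is not constant. -/
def IsCyclic (s m : ℕ) (Ω K : Type) [Field Ω] [Field K] [Algebra Ω K] (g : K ≃ₐ[Ω] K) : Prop :=
  0 < s ∧ ∃ (W V : Wei Ω) (F : Polynomial Ω) (L E : Type) (_ : Field L) (_ : Algebra Ω L)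
    (_ : Field E) (_ : Algebra Ω E) (_ : Algebra L E) (_ : IsScalarTower Ω L E) (T : Torsor W L E)
    (w : L) (f : K →ₐ[Ω] E) (σ₀ : E ≃ₐ[Ω] E),
    W.N = s ∧ (∀ c d : Ω, c ≠ 0 ∨ d ≠ 0 → MvPolynomial.C c * W.A ^ 3 ≠ MvPolynomial.C d * W.B ^ 2) ∧
      IsBaseChange W V F ∧ V.N = m * s ∧ Minimal V ∧ Polynomial.aeval w F = T.t ∧
      (∀ z, ∀ σ ∈ T.G, σ (algebraMap L E w) = algebraMap L E w → σ (f z) = f z) ∧
      σ₀ ∈ T.G ∧ (∀ z, f (g z) = σ₀ (f z)) ∧
      ((m : Ω) ≠ 0 ∧ F = Polynomial.X ^ m ∧ (∃ γ : Ω, IsPrimitiveRoot γ m ∧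
          σ₀ (algebraMap L E w) = algebraMap Ω E γ * algebraMap L E w) ∨
        m.Prime ∧ CharP Ω m ∧ F = Polynomial.X ^ m - Polynomial.X ∧
          σ₀ (algebraMap L E w) = algebraMap L E w + 1)

/-- `A` is the image under a correspondence of `H(K)`, where `K` is contained in the function field of
a surface with a genus one fibration, or of the eigenspace of `H(K)` for an eigenvalue `c ≠ 1` of an
automorphism of `K`, where `K` is contained in the function field of a cyclic base change of such a
surface. -/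
def PowCoh.IsPart (T : PowCoh Ω L) (K0 : Ext Ω) (s : ℕ) (A : Submodule L (T.H K0)) : Prop :=
  ∃ K : Ext Ω, ∃ ψ ∈ T.corr K K0,
    IsGenusOne s Ω K ∧ A = LinearMap.range ψ.hom ∨
    ∃ (m : ℕ) (g : K ≃ₐ[Ω] K) (c : L), IsCyclic s m Ω K g ∧ c ≠ 1 ∧
      A = (LinearMap.ker ((T.aut K g).hom - c • LinearMap.id)).map ψ.hom

/-- The products of generalised eigenvectors of `φ` for `a` and `q ^ 2 / a` are supported in
codimension two (and one). If `φ` is Frobenius, these are Tate classes. -/
def PowCoh.IsTate (T : PowCoh Ω L) {K : Ext Ω} (φ : T.H K ⟶ T.H K) (q : L) : Prop :=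
  ∀ (a b : L) (x y : T.H K), a * b = q ^ 2 → IsGen φ a x → IsGen φ b y →
    ∀ ν ≤ 2, tens ![x, y] ∈ T.sup K 2 ν

end Pool.Agent.Helper35.EQ
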